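import Pool.Agent.H51.ERA.Stmts
import Pool.Agent.H51.ERA.Base

/-!
MP_e0047e_lc, module CMW: the bracket part of W is the word of a uniform forest.
-/

set_option autoImplicit false

namespace Pool.Agent.H57.ERA

open Pool.Agent.H51.ERA

/-- chain of unary nodes -/
def chn (z : List Ent) (T : BT) : BT := z.foldr BT.one T

theorem chn_word (z : List Ent) (T : BT) :
    (chn z T).word = z.map Ltr.op ++ (T.word ++ z.reverse.map Ltr.cl) := by
  induction z with
  | nil => simp [chn]
  | cons a z ih =>
    have : chn (a :: z) T = BT.one a (chn z T) := rfl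
    rw [this]
    simp only [BT.word, ih, List.map_cons, List.reverse_cons, List.map_append, List.map_nil,
      List.cons_append, List.append_assoc]

theorem chn_UD (z : List Ent) (T : BT) (v : List (Fin 4)) (h : BT.UD v T) :
    BT.UD (z.map Prod.fst ++ v) (chn z T) := by
  induction z with
  | nil => simpa [chn] using h
  | cons a z ih =>
    have : chn (a :: z) T = BT.one a (chn z T) := rfl
    rw [this]
    simp only [List.map_cons, List.cons_append, BT.UD]
    exact ⟨trivial, ih⟩

theorem dc_word (T : BT) : T.word.count Ltr.dd = T.dc := by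
  induction T with
  | leaf d => cases d <;> simp [BT.word, BT.dc]
  | one a T ih => simp [BT.word, BT.dc, List.count_cons, ih]
  | two a T₁ T₂ ih₁ ih₂ => simp [BT.word, BT.dc, List.count_cons, ih₁, ih₂]

theorem dc_words (ts : List BT) : (ts.flatMap BT.word).count Ltr.dd = (ts.map BT.dc).sum := by
  induction ts with
  | nil => simp
  | cons a ts ih => simp [ih, dc_word]

theorem seg_types (s t : ℕ) (b : ℕ → Bool) (i : ℕ) (p : List Bool) :
    (seg s t b (i, p)).map Prod.fst =
      (List.range' (p.length * gg s t) (gg s t)).map (ty s t b) := by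
  unfold seg
  rw [List.map_map]
  apply List.ext_getElem?
  intro n
  rw [List.getElem?_map, List.getElem?_map]
  by_cases hn : n < gg s t
  · rw [List.getElem?_range hn, List.getElem?_range' (by omega)]
    simp [ent]
  · rw [List.getElem?_eq_none (by simpa using hn), List.getElem?_eq_none (by simpa using hn)]
    rfl

theorem gg_pos (s t : ℕ) : 0 < gg s t := by
  unfold gg lam
  omega

theorem range'_split (a g n : ℕ) : List.range' a (g + n) = List.range' a g ++ List.range' (a + g) n := by
  have := List.range'_append (s := a) (m := g) (n := n) (step := 1)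
  rw [Nat.one_mul] at this
  exact this.symm

theorem tree_ex (s t : ℕ) (b : ℕ → Bool) (i : ℕ) : ∀ (h : ℕ) (p : List Bool) (m : ℕ),
    ∃ T : BT, T.word = Tw s t b i h p m ∧
      BT.UD ((List.range' (p.length * gg s t) ((h + 1) * gg s t)).map (ty s t b)) T := by
  intro h
  induction h with
  | zero =>
    intro p m
    refine ⟨chn (seg s t b (i, p)) (BT.leaf (!decide (m = 0))), ?_, ?_⟩
    · rw [chn_word]
      simp only [Tw, BT.word]
      by_cases hm : m = 0 <;> simp [hm]
    · have h1 := chn_UD (seg s t b (i, p)) (BT.leaf (!decide (m = 0))) [] (by simp [BT.UD])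
      rw [seg_types, List.append_nil] at h1
      simpa using h1
  | succ h ih =>
    intro p m
    obtain ⟨T₁, hT₁, hU₁⟩ := ih (false :: p) (min m (2 ^ h))
    obtain ⟨T₂, hT₂, hU₂⟩ := ih (true :: p) (m - 2 ^ h)
    have hne : seg s t b (i, p) ≠ [] := by
      intro h0
      have := congrArg List.length h0
      simp only [seg, List.length_map, List.length_range, List.length_nil] at this
      have := gg_pos s t
      omega
    have hz := List.dropLast_append_getLast hne
    set z := (seg s t b (i, p)).dropLast with hzd
    set a := (seg s t b (i, p)).getLast hne with had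
    refine ⟨chn z (BT.two a T₁ T₂), ?_, ?_⟩
    · rw [chn_word]
      simp only [Tw, BT.word, hT₁, hT₂]
      rw [← hz]
      simp
    · have h1 := chn_UD z (BT.two a T₁ T₂)
        (a.1 :: (List.range' ((p.length + 1) * gg s t) ((h + 1) * gg s t)).map (ty s t b))
        (by
          simp only [BT.UD]
          simp only [List.length_cons] at hU₁ hU₂
          exact ⟨trivial, hU₁, hU₂⟩)
      have h2 : z.map Prod.fst ++ (a.1 ::
          (List.range' ((p.length + 1) * gg s t) ((h + 1) * gg s t)).map (ty s t b)) =
          (List.range' (p.length * gg s t) ((h + 1 + 1) * gg s t)).map (ty s t b) := by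
        have h3 : z.map Prod.fst ++ [a.1] = (seg s t b (i, p)).map Prod.fst := by
          rw [← hz]
          simp
        have h4 : z.map Prod.fst ++ (a.1 ::
          (List.range' ((p.length + 1) * gg s t) ((h + 1) * gg s t)).map (ty s t b)) =
          (z.map Prod.fst ++ [a.1]) ++
            (List.range' ((p.length + 1) * gg s t) ((h + 1) * gg s t)).map (ty s t b) := by simp
        rw [h4, h3, seg_types, ← List.map_append]
        have e1 : (h + 1 + 1) * gg s t = gg s t + (h + 1) * gg s t := by ring
        have e2 : (p.length + 1) * gg s t = p.length * gg s t + gg s t := by ring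
        rw [e1, e2, range'_split]
      rw [h2] at h1
      exact h1

theorem CMW_thm (hCNW : CNWStmt) : CMWStmt := by
  intro s t b
  obtain ⟨_, h2, _, h4⟩ := hCNW s t b
  have hex : ∀ i : ℕ, ∃ T : BT, T.word = Tw s t b i (DD t) [] (if i = 0 then Fb t b else 0) ∧
      BT.UD (vpart s t b) T := by
    intro i
    obtain ⟨T, hT, hU⟩ := tree_ex s t b i (DD t) [] (if i = 0 then Fb t b else 0)
    refine ⟨T, hT, ?_⟩
    have : vpart s t b =
        (List.range' (([] : List Bool).length * gg s t) ((DD t + 1) * gg s t)).map (ty s t b) := by
      unfold vpart nn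
      rw [List.length_nil, Nat.zero_mul, List.range_eq_range', Nat.mul_comm]
    rw [this]
    exact hU
  choose f hf hU using hex
  have hB : Bpart s t b = ((List.range (kk s)).map f).flatMap BT.word := by
    unfold Bpart
    rw [List.flatMap_map]
    apply List.flatMap_congr
    intro i _
    exact (hf i).symm
  refine ⟨(List.range (kk s)).map f, ?_, ?_, hB⟩
  · intro x hx
    obtain ⟨i, _, rfl⟩ := List.mem_map.1 hx
    exact hU i
  · rw [← dc_words, ← hB, h4, ← h2]
    unfold WW
    rw [List.count_append]
    have : ((vpart s t b).map Ltr.vl).count Ltr.dd = 0 := by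
      rw [List.count_eq_zero]
      intro hm
      obtain ⟨x, _, hx⟩ := List.mem_map.1 hm
      exact Ltr.noConfusion hx
    omega

end Pool.Agent.H57.ERA
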