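import Pool.Agent.H51.ERA.Stmts
import Pool.Agent.H51.ERA.Base

/-!
MP_e0047e_lc, module LEMB: E-segments with the same symbol have the same period.
-/

set_option autoImplicit false

namespace Pool.Agent.H57.ERA

open Pool.Agent.H51.ERA

theorem tl_ge (s t h : ℕ) : 2 * gg s t + 1 ≤ tl s t h := by
  induction h with
  | zero => simp [tl]
  | succ h ih =>
    simp only [tl]
    omega

theorem lam_pos (s : ℕ) : 0 < lam s := by
  unfold lam
  omega

theorem per_pos (s : ℕ) (ν : Node) : 1 ≤ per s ν := by
  unfold per
  split_ifs <;> omega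

theorem per_le (s t i : ℕ) (p : List Bool) (h : IsNode s t i p) : 2 * per s (i, p) ≤ lam s := by
  have h1 := h.1
  unfold per lam
  split_ifs with hp
  · simp only
    omega
  · have : p.length % (s + 1) < s + 1 := Nat.mod_lt _ (by omega)
    simp only
    omega

/-- ancestors -/
theorem anc (hNEST : NESTStmt) (s t i : ℕ) (a : List Bool) : ∀ r : List Bool,
    IsNode s t i (r ++ a) → r ≠ [] →
    lo s t i a + gg s t ≤ lo s t i (r ++ a) ∧ hi s t i (r ++ a) + gg s t ≤ hi s t i a := by
  intro r
  induction r with
  | nil => intro _ h; exact absurd rfl h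
  | cons c r ih =>
    intro hn _
    have h1 := hNEST s t i (r ++ a) c hn
    rw [List.cons_append]
    have hn' : IsNode s t i (r ++ a) := by
      refine ⟨hn.1, ?_⟩
      have := hn.2
      simp only [List.cons_append, List.length_cons] at this
      omega
    by_cases hr : r = []
    · subst hr
      simpa using h1
    · have h2 := ih hn' hr
      omega

theorem isNode_of_append {s t i : ℕ} {r a : List Bool} (h : IsNode s t i (r ++ a)) :
    IsNode s t i a := by
  refine ⟨h.1, ?_⟩
  have := h.2
  rw [List.length_append] at this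
  omega

theorem same_pos (hDISJ : DISJStmt) (hNEST : NESTStmt) (s t i i' : ℕ) (p p' : List Bool) (x : ℕ)
    (hn : IsNode s t i p) (hn' : IsNode s t i' p') (h1 : lo s t i p + lam s ≤ x)
    (h2 : x ≤ lo s t i p + gg s t) (h1' : lo s t i' p' + lam s ≤ x)
    (h2' : x ≤ lo s t i' p' + gg s t) (hle : p.length ≤ p'.length) : i = i' ∧ p = p' := by
  have hl := lam_pos s
  have hx : x < hi s t i p := by
    have := tl_ge s t (DD t - p.length)
    unfold hi
    omega
  have hx' : x < hi s t i' p' := by
    have := tl_ge s t (DD t - p'.length)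
    unfold hi
    omega
  have hsplit : p'.take (p'.length - p.length) ++ p'.drop (p'.length - p.length) = p' :=
    List.take_append_drop _ _
  set r := p'.take (p'.length - p.length) with hr
  set a := p'.drop (p'.length - p.length) with ha
  have hla : a.length = p.length := by
    rw [ha, List.length_drop]
    omega
  have hna : IsNode s t i' a := by
    rw [← hsplit] at hn'
    exact isNode_of_append hn'
  by_cases hr0 : r = []
  · rw [hr0, List.nil_append] at hsplit
    rw [← hsplit]
    rw [← hsplit] at h1' h2' hx'
    exact hDISJ s t x i i' p a hn hna hla.symm (by omega) hx (by omega) hx'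
  · exfalso
    have h3 := anc hNEST s t i' a r (by rw [hsplit]; exact hn') hr0
    rw [hsplit] at h3
    have h4 := hDISJ s t x i i' p a hn hna hla.symm (by omega) hx (by omega) (by omega)
    rw [h4.1, h4.2] at h2
    omega

/-- the end of the stack after an E-segment -/
theorem estack (hOPS : OPSStmt) {s t : ℕ} {b : ℕ → Bool} {N : Type} {K : List (Sg N)}
    (hK : yl K = WW s t b) {i : ℕ} {p : List Bool} {j : ℕ} {A : Symbol Ltr N} {y : List Ltr}
    (hn : IsNode s t i p) (hE : EAt s t K j i p) (hj : K[j]? = some (A, y)) {σ₀ σ : List Ent}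
    (hrun : run y σ₀ = some σ) :
    σ.take (lam s) = ((List.range' (ps K (j + 1) - lo s t i p - lam s) (lam s)).map
      (ent s t b (i, p))).reverse := by
  obtain ⟨h1, h2, h3⟩ := hE
  set x := ps K (j + 1) with hx
  have hy := ent_eq K hj
  rw [hK, ← hx] at hy
  have hs : y = sl (WW s t b) (ps K j) (x - lam s) ++ sl (WW s t b) (x - lam s) x := by
    rw [sl_append _ (by omega) (by omega)]
    exact hy
  have ho := hOPS s t b i p (x - lo s t i p - lam s) (x - lo s t i p) hn (by omega) (by omega)
  have e1 : lo s t i p + (x - lo s t i p - lam s) = x - lam s := by omega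
  have e2 : lo s t i p + (x - lo s t i p) = x := by omega
  have e3 : x - lo s t i p - (x - lo s t i p - lam s) = lam s := by omega
  rw [e1, e2, e3] at ho
  rw [hs, ho] at hrun
  obtain ⟨σ₁, _, hr2⟩ := run_split hrun
  rw [run_ops, Option.some.injEq] at hr2
  rw [← hr2]
  apply List.take_left'
  simp

theorem LEMB_thm (hSW : SWStmt) (hOPS : OPSStmt) (hPER : PERStmt) (hDISJ : DISJStmt)
    (hNEST : NESTStmt) : LEMBStmt := by
  intro N Q L rho sys hL s t b q K hC hK i i' p p' j j' A y y' hn hn' hE hE' hj hj'
  by_cases hjj : j = j'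
  · subst hjj
    obtain ⟨h1, h2, h3⟩ := hE
    obtain ⟨h1', h2', h3'⟩ := hE'
    rcases le_total p.length p'.length with hle | hle
    · obtain ⟨e1, e2⟩ := same_pos hDISJ hNEST s t i i' p p' _ hn hn' h2 h3 h2' h3' hle
      rw [e1, e2]
    · obtain ⟨e1, e2⟩ := same_pos hDISJ hNEST s t i' i p' p _ hn' hn h2' h3' h2 h3 hle
      rw [e1, e2]
  · obtain ⟨σ₀, σ₁, σ, hr, hr'⟩ := hSW N Q L rho sys hL q K j j' A y y' hC hjj hj hj'
    have h1 := estack hOPS hK hn hE hj hr
    have h2 := estack hOPS hK hn' hE' hj' hr'
    rw [h1] at h2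
    have h3 := List.reverse_injective h2
    set X := ps K (j + 1) - lo s t i p - lam s with hX
    set X' := ps K (j' + 1) - lo s t i' p' - lam s with hX'
    obtain ⟨g1, g2, g3⟩ := hE
    obtain ⟨g1', g2', g3'⟩ := hE'
    apply hPER (per s (i, p)) (per s (i', p')) (X + lam s) (X' + lam s) (lam s) (per_pos _ _)
      (per_pos _ _) (per_le s t i p hn) (per_le s t i' p' hn') (by omega) (by omega)
    intro m hm
    have h4 : _ = _ := congrArg (fun l => l[lam s - 1 - m]?) h3
    beta_reduce at h4
    rw [List.getElem?_map, List.getElem?_map, List.getElem?_range' , List.getElem?_range'] at h4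
    all_goals try omega
    simp only [Option.map_some, Option.some.injEq] at h4
    have h5 := congrArg (fun e : Ent => e.2.1) h4
    simp only [ent, lab] at h5
    have h6 := decide_eq_decide.1 h5
    have e1 : X + lam s - 1 - m = X + 1 * (lam s - 1 - m) := by omega
    have e2 : X' + lam s - 1 - m = X' + 1 * (lam s - 1 - m) := by omega
    rw [e1, e2]
    exact h6

end Pool.Agent.H57.ERA
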